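import Pool.Agent.H220M.Fin8
import Pool.Agent.H220M.M1
import Pool.Agent.H220M.M2
import Pool.Agent.H220M.M3
import Pool.Agent.H220M.M4a
import Pool.Agent.H220M.M4
import Pool.Agent.H220M.M5
import Pool.Agent.H220M.M6a
import Pool.Agent.H220M.M6b
import Pool.Agent.H220M.M6
import Pool.Agent.H220M.P2

/-!
# Almost every modification of a completely multiplicative function on a thin set of primes is
generic for the Bernoulli shift

For almost every choice of signs on the thin set `Q` of primes the modified completely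
multiplicative function has every sign pattern of every length `n` with natural density exactly
`2 ^ (-n)`.
-/

set_option autoImplicit false

namespace Pool.Agent.Results.MP_4a7640_nt.BernoulliThinSigns

open Filter MeasureTheory Finset Pool.Agent.H220M

theorem result (g : ℕ →*₀ ℤ) (hg : ∀ p : ℕ, p.Prime → g p = 1 ∨ g p = -1)
    (Q : Set ℕ) (hQp : ∀ q ∈ Q, q.Prime) (hQ : Thick Q) :
    ∀ᵐ ω ∂coins, ∃! f : ℕ →*₀ ℤ, IsModif g Q ω f ∧
      ∀ (n : ℕ) (t : Fin n → ℤ), (∀ j, t j = 1 ∨ t j = -1) →
        Tendsto (fun x : ℕ => (cnt f t x : ℝ) / x) atTop (nhds (1 / 2 ^ n)) :=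
  finalG (tM6 tC0 (tM5 tM1 tM2 tM3 (tM4 tP2 tM4a)) tM6a tM6b) g hg Q hQp hQ

end Pool.Agent.Results.MP_4a7640_nt.BernoulliThinSigns
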