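import Mathlib
import Pool.Agent.W257.FS.H
import Pool.Agent.W479.TLClaim
import Pool.Agent.W591.TL.Law
import Pool.Agent.W975.TLTail
import Pool.Agent.W290.TL.Near

/-!
# Furstenberg systems of `±1`-valued multiplicative functions near Dirichlet characters

`SignMul f`: `f 1 = 1`, `f (m n) = f m f n` for coprime `m, n`, and `f n ∈ {1, -1}` for `n ≥ 1`.
`bern`: the law of independent fair signs on `ℤ → ℝ`.
`xf f`: the point `x_f` (`f n` for `n ≥ 1`, `0` for `n ≤ 0`); `logAvg f F N`: the integral of `F`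
against `μ_N`; `IsFurst f μ`: the probability measure `μ` is the limit of `μ_(N_k)` along some
`N_k → ∞`, tested on all bounded continuous functions.
These four are defined in `Pool.Agent.W257.FS.D`, `F` and `G`.
-/

set_option autoImplicit false

namespace Pool.Agent.Results.MP_4a7640_nt.NearCharacters

open Finset Filter MeasureTheory Pool.Agent.W257.FS

/-- `f` has infinite distance to `χ` -/
def Far (f : ℕ → ℝ) {q : ℕ} (χ : DirichletCharacter ℂ q) : Prop :=
  ¬ Summable (fun p : Nat.Primes =>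
    (1 - ((f p : ℂ) * star (χ ((p : ℕ) : ZMod q))).re) / ((p : ℕ) : ℝ))

open Classical in
/-- `∑ (log p) / p` over the primes `p ≤ X` with `f p ≠ χ p` -/
noncomputable def logSum (f : ℕ → ℝ) {q : ℕ} (χ : DirichletCharacter ℂ q) (X : ℕ) : ℝ :=
  ∑ p ∈ (Icc 1 X).filter (fun p => p.Prime ∧ (f p : ℂ) ≠ χ (p : ZMod q)), Real.log p / p

open Classical in
/-- `∑ 1 / p` over the primes `p ≤ X < p ^ K` with `f p ≠ χ p` -/
noncomputable def topSum (f : ℕ → ℝ) {q : ℕ} (χ : DirichletCharacter ℂ q) (K X : ℕ) : ℝ :=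
  ∑ p ∈ (Icc 1 X).filter (fun p => p.Prime ∧ X < p ^ K ∧ (f p : ℂ) ≠ χ (p : ZMod q)), 1 / (p : ℝ)

open Classical in
/-- the natural frequency up to `N` of `f (n + h j) = s j` for all `j` -/
noncomputable def natFreq (f : ℕ → ℝ) {L : ℕ} (h : Fin L → ℕ) (s : Fin L → ℝ) (N : ℕ) : ℝ :=
  (((Ioc 0 N).filter (fun n => ∀ j, f (n + h j) = s j)).card : ℝ) / N

open Classical in
/-- the logarithmic frequency up to `N` of `f (n + h j) = s j` for all `j` -/
noncomputable def logFreq (f : ℕ → ℝ) {L : ℕ} (h : Fin L → ℕ) (s : Fin L → ℝ) (N : ℕ) : ℝ :=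
  (∑ n ∈ (Ioc 0 N).filter (fun n => ∀ j, f (n + h j) = s j), 1 / (n : ℝ)) / Real.log N

lemma np_of {f : ℕ → ℝ} {q : ℕ} {χ : DirichletCharacter ℂ q} (h : Far f χ) :
    NP (fun _ : Fin 1 => f) (fun _ => χ) := by
  intro S hS
  have e : S = {0} := by
    obtain ⟨a, ha⟩ := hS
    ext b
    rw [mem_singleton]
    have h1 : a = 0 := Subsingleton.elim _ _
    have h2 : b = 0 := Subsingleton.elim _ _
    rw [h1] at ha
    simp [h2, ha]
  rw [e]
  simp only [prod_singleton]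
  exact h

lemma agree_iff {f : ℕ → ℝ} {q : ℕ} {χ : DirichletCharacter ℂ q} (p : ℕ) :
    Agree (fun _ : Fin 1 => f) (fun _ => χ) p ↔ (f p : ℂ) = χ (p : ZMod q) :=
  ⟨fun h => h 0, fun h _ => h⟩

lemma bl_eq (f : ℕ → ℝ) {q : ℕ} (χ : DirichletCharacter ℂ q) (X : ℕ) :
    BL (fun _ : Fin 1 => f) (fun _ => χ) X = logSum f χ X := by
  classical
  unfold BL logSum
  refine sum_congr (filter_congr fun p _ => ?_) fun _ _ => rfl
  rw [agree_iff]

lemma bs_eq (f : ℕ → ℝ) {q : ℕ} (χ : DirichletCharacter ℂ q) (K X : ℕ) :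
    BS (fun _ : Fin 1 => f) (fun _ => χ) K X = topSum f χ K X := by
  classical
  unfold BS topSum
  refine sum_congr (filter_congr fun p _ => ?_) fun _ _ => rfl
  rw [agree_iff]

lemma nf_eq (f : ℕ → ℝ) {L : ℕ} (h : Fin L → ℕ) (s : Fin L → ℝ) (N : ℕ) :
    NF (fun _ : Fin 1 => f) h (fun j _ => s j) N = natFreq f h s N := by
  classical
  unfold NF natFreq
  congr 3
  refine filter_congr fun n _ => ?_
  exact ⟨fun h' j => h' j 0, fun h' j _ => h' j⟩

lemma lf_eq (f : ℕ → ℝ) {L : ℕ} (h : Fin L → ℕ) (s : Fin L → ℝ) (N : ℕ) :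
    LF (fun _ : Fin 1 => f) h (fun j _ => s j) N = logFreq f h s N := by
  classical
  unfold LF logFreq
  congr 1
  refine sum_congr (filter_congr fun n _ => ?_) fun _ _ => rfl
  exact ⟨fun h' j => h' j 0, fun h' j _ => h' j⟩

/-- (1) stability; (2) uniqueness at density zero; (3) the Bernoulli system along a subsequence -/
theorem result :
    (∀ (L : ℕ) (ε : ℝ), 0 < ε → ∃ δ : ℝ, 0 < δ ∧
      ∀ (q : ℕ) (χ : DirichletCharacter ℂ q) (f : ℕ → ℝ), 1 ≤ q → SignMul f → Far f χ →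
        (∀ᶠ X : ℕ in atTop, logSum f χ X ≤ δ * Real.log X) →
        ∀ h : Fin L → ℕ, Function.Injective h →
          ∀ᶠ N : ℕ in atTop, ∀ s : Fin L → ℝ, (∀ j, s j = 1 ∨ s j = -1) →
            |natFreq f h s N - 1 / 2 ^ L| ≤ ε ∧ |logFreq f h s N - 1 / 2 ^ L| ≤ ε) ∧
    (∀ (q : ℕ) (χ : DirichletCharacter ℂ q) (f : ℕ → ℝ), 1 ≤ q → SignMul f → Far f χ →
        Tendsto (fun X : ℕ => logSum f χ X / Real.log X) atTop (nhds 0) →
        (∀ (L : ℕ) (h : Fin L → ℕ) (s : Fin L → ℝ), Function.Injective h →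
          (∀ j, s j = 1 ∨ s j = -1) → Tendsto (natFreq f h s) atTop (nhds (1 / 2 ^ L))) ∧
        ∀ μ : Measure (ℤ → ℝ), IsFurst f μ ↔ μ = bern) ∧
    (∀ f : ℕ → ℝ, SignMul f →
        (∀ (q : ℕ) (χ : DirichletCharacter ℂ q), 1 ≤ q → Far f χ) →
        (∀ K : ℕ, 1 ≤ K → ∃ (q : ℕ) (χ : DirichletCharacter ℂ q), 1 ≤ q ∧
          ∃ᶠ X : ℕ in atTop, topSum f χ K X ≤ 1 / K) →
        IsFurst f bern) := by
  have hC := Pool.Agent.W479.TLClaim.claim Pool.Agent.W591.TL.law Pool.Agent.W975.TL.tail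
  have hN := Pool.Agent.W290.TL.near
  refine ⟨fun L ε hε => ?_, fun q χ f hq hf hfar hdens => ⟨fun L h s hinj hs => ?_, ?_⟩,
    fun f hf hfar hK => ?_⟩
  · obtain ⟨δ, hδ, hst⟩ := stable hC hN L ε hε
    refine ⟨δ, hδ, fun q χ f hq hf hfar hdens h hinj => ?_⟩
    have h1 := hst 1 q (fun _ => χ) (fun _ => f) h hq (fun _ => hf) hinj (np_of hfar)
      (by simpa only [bl_eq] using hdens)
    filter_upwards [h1] with N hN' s hs
    have h2 := hN' (fun j _ => s j) (fun j _ => hs j)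
    rw [nf_eq, lf_eq, mul_one] at h2
    exact h2
  · have h1 := (dens_zero hC hN (fun _ : Fin 1 => χ) (fun _ => f) hq (fun _ => hf) (np_of hfar)
      (by simpa only [bl_eq] using hdens) h hinj (fun j _ => s j) (fun j _ => hs j)).1
    rw [mul_one] at h1
    exact h1.congr fun N => nf_eq f h s N
  · refine furst_unique (fun F hFc hFb => weak hf le_rfl (fun L b => ?_) F hFc hFb)
    have h1 := (dens_zero hC hN (fun _ : Fin 1 => χ) (fun _ => f) hq (fun _ => hf) (np_of hfar)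
      (by simpa only [bl_eq] using hdens) (fun j : Fin L => (j : ℕ)) (fun a b hab => Fin.ext hab)
      (fun j _ => sgn (b j)) (fun j _ => sgn_or (b j))).2
    rw [mul_one] at h1
    exact h1
  · obtain ⟨N, hN1, hN2⟩ := diag hC hN (fun _ : Fin 1 => f) (fun _ => hf) (fun K hK1 => by
      obtain ⟨q, χ, hq, hX⟩ := hK K hK1
      exact ⟨q, fun _ => χ, hq, np_of (hfar q χ hq), by simpa only [bs_eq] using hX⟩)
    refine ⟨inferInstance, N, hN1, fun F hFc hFb => ?_⟩
    have h1 := weak hf (𝓕 := Filter.map N atTop) hN1 (fun L b => by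
      have h2 := hN2 L (fun j _ => sgn (b j)) (fun j _ => sgn_or (b j))
      rw [mul_one] at h2
      exact h2) F hFc hFb
    exact h1

end Pool.Agent.Results.MP_4a7640_nt.NearCharacters
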