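import Pool.Agent.W136.RF.Ap

set_option autoImplicit false

namespace Pool.Agent.Results.MP_4a7640_nt.RandomSignChanges

open Finset MeasureTheory ProbabilityTheory Filter

/-- multiplicative functions with values `1` and `-1` -/
def MulSign (f : ℕ → ℝ) : Prop :=
  (∀ n, f n = 1 ∨ f n = -1) ∧ ∀ m n : ℕ, Nat.Coprime m n → f (m * n) = f m * f n

/-- infinite distance to every Dirichlet character -/
def Aperiodic (f : ℕ → ℝ) : Prop := ∀ (q : ℕ), 1 ≤ q → ∀ χ : DirichletCharacter ℂ q,
  Tendsto (fun X : ℕ => ∑ p ∈ (Icc 1 X).filter Nat.Prime,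
    (1 - ((f p : ℂ) * starRingEnd ℂ (χ (p : ZMod q))).re) / p) atTop atTop

/-- `g` with the sign changes `s p` at the primes: `n = ∏ p ^ k` goes to `g n * ∏ (s p) ^ k` -/
noncomputable def change (g s : ℕ → ℝ) (n : ℕ) : ℝ := g n * n.factorization.prod (fun p k => s p ^ k)

/-- the sum over the primes `p ≤ X` of `(1 - |E e p|) / p`; here `1 - |E e p|` is twice the minimum of
the probabilities of `e p = 1` and `e p = -1` -/
noncomputable def randomness {Ω : Type} [MeasurableSpace Ω] (P : Measure Ω) (e : ℕ → Ω → ℝ)
    (X : ℕ) : ℝ :=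
  ∑ p ∈ (Icc 1 X).filter Nat.Prime, (1 - |∫ ω, e p ω ∂P|) / p

theorem result {Ω : Type} [MeasurableSpace Ω] (P : Measure Ω) [IsProbabilityMeasure P]
    (e : ℕ → Ω → ℝ) (hm : ∀ p, Measurable (e p)) (he : ∀ p ω, e p ω = 1 ∨ e p ω = -1)
    (hind : iIndepFun e P)
    (hS : Summable fun b : ℕ => Real.exp (- randomness P e (2 ^ (2 ^ b))))
    (g : ℕ → ℝ) (hg : MulSign g) :
    ∀ᵐ ω ∂P, MulSign (change g fun p => e p ω) ∧ Aperiodic (change g fun p => e p ω) ∧
      ∀ (H : Finset ℕ) (σ : ℕ → ℝ), (∀ h, σ h = 1 ∨ σ h = -1) →
        Tendsto (fun N : ℕ => (∑ n ∈ (Icc 1 N).filter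
          (fun n => ∀ h ∈ H, change g (fun p => e p ω) (n + h) = σ h), (1 : ℝ) / n) / Real.log N)
          atTop (nhds ((1 / 2) ^ H.card)) := by
  classical
  have hgabs : ∀ n, |g n| = 1 := by
    intro n
    rcases hg.1 n with h | h <;> rw [h] <;> simp
  -- the family over a one point set
  have hind' : iIndepFun (fun i : Unit × ℕ => e i.2) P :=
    hind.precomp (g := fun i : Unit × ℕ => i.2) (fun a b h => Prod.ext rfl h)
  have hcor : ∀ᵐ ω ∂P, ∀ A : Finset ℕ, A.Nonempty → Tendsto (fun X : ℕ =>
      (∑ n ∈ Icc 1 X, (∏ h ∈ A, change g (fun p => e p ω) (n + h)) / n) / Real.log X) atTop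
      (nhds 0) := by
    rw [ae_all_iff]
    intro A
    by_cases hA : A.Nonempty
    swap
    · exact Eventually.of_forall fun ω h => absurd h hA
    obtain ⟨h0, hh0⟩ := hA
    have h1 := Pool.Agent.W136.RF.as_main (P := P) (ι := Unit) (ε := fun _ p => e p)
      (fun _ p => hm p) (fun _ p ω => he p ω) hind' (A.image fun h => ((), h)) () h0
      (mem_image_of_mem _ hh0) hS (fun n => ∏ h ∈ A, g (n + h)) (fun n => by
        rw [abs_prod]
        exact (prod_eq_one fun h _ => hgabs (n + h)).le)
    filter_upwards [h1] with ω hω _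
    refine hω.congr fun X => ?_
    congr 1
    apply sum_congr rfl
    intro n _
    congr 1
    unfold Pool.Agent.W136.RF.WW
    rw [prod_image (fun a _ b _ h => (Prod.mk.inj h).2), ← prod_mul_distrib]
    rfl
  have hap : ∀ᵐ ω ∂P, Aperiodic (change g fun p => e p ω) := by
    unfold Aperiodic
    rw [ae_all_iff]
    intro q
    by_cases hq : 1 ≤ q
    swap
    · exact Eventually.of_forall fun ω h => absurd h hq
    have : NeZero q := ⟨by omega⟩
    have h2 : ∀ᵐ ω ∂P, ∀ χ : DirichletCharacter ℂ q,
        Tendsto (fun X : ℕ => ∑ p ∈ (Icc 1 X).filter Nat.Prime,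
          (1 - ((change g (fun p => e p ω) p : ℂ) * starRingEnd ℂ (χ (p : ZMod q))).re) / p)
          atTop atTop := by
      rw [ae_all_iff]
      intro χ
      have h3 := Pool.Agent.W136.RF.dist_as (P := P) hm hind he hS
        (fun p => g p * (χ (p : ZMod q)).re) (fun p => by
          rw [abs_mul, hgabs, one_mul]
          exact (Complex.abs_re_le_norm _).trans (χ.norm_le_one _))
      filter_upwards [h3] with ω hω
      refine hω.congr fun X => ?_
      apply sum_congr rfl
      intro p hp
      have hpp : p.Prime := (mem_filter.1 hp).2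
      have h4 : change g (fun p => e p ω) p = g p * e p ω := by
        have h5 : (Finsupp.single p 1).prod (fun p k => (fun p => e p ω) p ^ k) = e p ω := by
          rw [Finsupp.prod_single_index]
          · exact pow_one _
          · exact pow_zero _
        unfold change
        rw [hpp.factorization, h5]
      rw [h4]
      congr 1
      simp only [Complex.mul_re, Complex.ofReal_re, Complex.ofReal_im, zero_mul, sub_zero,
        Complex.conj_re]
      ring
    filter_upwards [h2] with ω hω _
    exact hω
  filter_upwards [hcor, hap] with ω h1 h2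
  have hms : MulSign (change g fun p => e p ω) := by
    constructor
    · intro n
      have h3 : |change g (fun p => e p ω) n| = 1 := by
        unfold change
        rw [abs_mul, hgabs, one_mul]
        exact Pool.Agent.W136.RF.cm_abs (fun p => he p ω) n
      rcases abs_eq (zero_le_one) |>.1 h3 with h | h
      · exact Or.inl h
      · exact Or.inr h
    · intro m n hmn
      rcases Nat.eq_zero_or_pos m with rfl | hm0
      · rw [Nat.coprime_zero_left] at hmn
        subst hmn
        have h5 : g 1 = 1 := by
          have h6 := hg.2 1 1 (Nat.coprime_one_left 1)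
          rw [mul_one] at h6
          rcases hg.1 1 with h | h
          · exact h
          · rw [h] at h6; norm_num at h6
        unfold change
        simp [h5]
      rcases Nat.eq_zero_or_pos n with rfl | hn0
      · rw [Nat.coprime_zero_right] at hmn
        subst hmn
        have h5 : g 1 = 1 := by
          have h6 := hg.2 1 1 (Nat.coprime_one_left 1)
          rw [mul_one] at h6
          rcases hg.1 1 with h | h
          · exact h
          · rw [h] at h6; norm_num at h6
        unfold change
        simp [h5]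
      have h7 := Pool.Agent.W136.RF.cm_mul (fun p => e p ω) hm0.ne' hn0.ne'
      unfold Pool.Agent.W136.RF.cm at h7
      unfold change
      rw [hg.2 m n hmn, h7]
      ring
  refine ⟨hms, h2, fun H σ hσ => ?_⟩
  exact Pool.Agent.W136.RF.pattern _ hms.1 h1 H σ hσ

end Pool.Agent.Results.MP_4a7640_nt.RandomSignChanges
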